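import Pool.Agent.Lib_MP_5f1df6_ins.Mix

set_option autoImplicit false

open Matrix Pool.Agent.Lib_MP_5f1df6_ins

namespace Pool.Agent.Results.MP_5f1df6_co.NonintegralMixing

/-- There is a set `C` of 122 nonzero elements of the group `G = (ZMod 5)^4`, closed under
negation, such that for the Cayley graph `X` of `G` with connection set `C` (`a` and `b` are
adjacent iff `b - a` lies in `C`), with adjacency matrix `A`, all 625^2 entries of the transition
matrix `exp (i t A)` at the time `t = 2 pi / 25` have the absolute value `1 / sqrt 625`, where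
`625` is the number of vertices, and the irrational number `(39 + sqrt 5) / 2` is an eigenvalue
of `A`. -/
theorem result :
    ∃ C : Finset (Fin 4 → ZMod 5), C.card = 122 ∧ (0 : Fin 4 → ZMod 5) ∉ C ∧ (∀ c ∈ C, -c ∈ C) ∧
      ∃ (X : SimpleGraph (Fin 4 → ZMod 5)) (_ : DecidableRel X.Adj),
        (∀ a b, X.Adj a b ↔ b - a ∈ C) ∧
        (∀ a b, ‖NormedSpace.exp
            ((Complex.I * ((2 * Real.pi / 25 : ℝ) : ℂ)) • X.adjMatrix ℂ) a b‖ =
          1 / Real.sqrt (Fintype.card (Fin 4 → ZMod 5) : ℝ)) ∧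
        (∃ x : (Fin 4 → ZMod 5) → ℂ, x ≠ 0 ∧
          (X.adjMatrix ℂ) *ᵥ x = (((39 + Real.sqrt 5) / 2 : ℝ) : ℂ) • x) ∧
        Irrational ((39 + Real.sqrt 5) / 2) := by
  classical
  let X : SimpleGraph (Fin 4 → ZMod 5) :=
    { Adj := fun a b => b - a ∈ C
      symm := ⟨fun a b h => by simpa using C_neg _ h⟩
      loopless := ⟨fun a h => zero_notMem (by simpa using h)⟩ }
  have hX : ∀ a b, X.Adj a b ↔ b - a ∈ C := fun a b => Iff.rfl
  have hA : ∀ a b, (X.adjMatrix ℂ) a b = if b - a ∈ C then 1 else 0 := fun a b => by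
    rw [SimpleGraph.adjMatrix_apply]
  refine ⟨C, card_C, zero_notMem, C_neg, X, inferInstance, hX, ?_, ?_, ?_⟩
  · intro a b
    have h1 : Real.sqrt (Fintype.card (Fin 4 → ZMod 5) : ℝ) = 25 := by
      have h2 : (Fintype.card (Fin 4 → ZMod 5) : ℝ) = 25 ^ 2 := by
        rw [Fintype.card_fun, ZMod.card, Fintype.card_fin]
        norm_num
      rw [h2]
      exact Real.sqrt_sq (by norm_num)
    rw [h1]
    exact norm_entry _ hA a b
  · refine ⟨fun a => e (ip a e0), ?_, ?_⟩
    · intro h
      have h1 := congrFun h 0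
      have h2 : ip 0 e0 = 0 := by simp [ip]
      simp only [h2, AddChar.map_zero_eq_one, Pi.zero_apply] at h1
      exact one_ne_zero h1
    · rw [eig _ hA, lam_e0]
  · have h5 : Irrational (Real.sqrt 5) := by
      simpa using Nat.Prime.irrational_sqrt (p := 5) (by norm_num)
    have h6 : Irrational ((39 : ℕ) + Real.sqrt 5) := h5.natCast_add 39
    have h7 := h6.div_natCast (m := 2) (by norm_num)
    simpa using h7

end Pool.Agent.Results.MP_5f1df6_co.NonintegralMixing
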